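import Mathlib
import Pool.Agent.U581.LB.Stm

set_option autoImplicit false

/-!
# Project LB, package CLT: the characteristic function of a trigonometric polynomial on the torus
-/

namespace Pool.Agent.U908.LB.CLT

open MeasureTheory Filter Topology
open Pool.Agent.U581.LB

theorem hasDeriv_e (x : ℝ) : HasDerivAt (fun t : ℝ => Complex.exp ((t : ℂ) * Complex.I))
    (Complex.exp ((x : ℂ) * Complex.I) * Complex.I) x := by
  have h1 : HasDerivAt (fun t : ℝ => (t : ℂ) * Complex.I) Complex.I x := by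
    simpa using (Complex.ofRealCLM.hasDerivAt (x := x)).mul_const Complex.I
  exact h1.cexp

theorem hasDeriv_l (x : ℝ) : HasDerivAt (fun t : ℝ => (t : ℂ) * Complex.I) Complex.I x := by
  simpa using (Complex.ofRealCLM.hasDerivAt (x := x)).mul_const Complex.I

theorem norm_e_sub (t : ℝ) (ht : 0 ≤ t) : ‖Complex.exp ((t : ℂ) * Complex.I) - 1‖ ≤ t := by
  have h := Real.norm_exp_I_mul_ofReal_sub_one_le (x := t)
  rw [mul_comm, Real.norm_of_nonneg ht] at h
  exact h

theorem d_sq (x : ℝ) : HasDerivAt (fun t : ℝ => t ^ 2 / 2) x x := by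
  refine ((hasDerivAt_pow 2 x).div_const 2).congr_deriv ?_
  norm_num

theorem d_cu (x : ℝ) : HasDerivAt (fun t : ℝ => t ^ 3 / 6) (x ^ 2 / 2) x := by
  refine ((hasDerivAt_pow 3 x).div_const 6).congr_deriv ?_
  norm_num
  ring

theorem d_sqC (x : ℝ) : HasDerivAt (fun t : ℝ => (t : ℂ) ^ 2 / 2) (x : ℂ) x := by
  have h := (d_sq x).ofReal_comp
  simpa using h

theorem tay2 {y : ℝ} (hy : 0 ≤ y) :
    ‖Complex.exp ((y : ℂ) * Complex.I) - 1 - y * Complex.I‖ ≤ y ^ 2 / 2 := by
  have h := image_norm_le_of_norm_deriv_right_le_deriv_boundary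
    (f := fun t : ℝ => Complex.exp ((t : ℂ) * Complex.I) - 1 - t * Complex.I)
    (f' := fun t : ℝ => Complex.exp ((t : ℂ) * Complex.I) * Complex.I - Complex.I)
    (a := 0) (b := y) (B := fun t : ℝ => t ^ 2 / 2) (B' := fun t : ℝ => t)
    (by fun_prop)
    (fun x _ => (((hasDeriv_e x).sub_const 1).sub (hasDeriv_l x)).hasDerivWithinAt)
    (by simp)
    (fun x => d_sq x)
    (fun x hx => by
      have e : Complex.exp ((x : ℂ) * Complex.I) * Complex.I - Complex.I =
          (Complex.exp ((x : ℂ) * Complex.I) - 1) * Complex.I := by ring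
      simp only [e]
      rw [norm_mul, Complex.norm_I, mul_one]
      exact norm_e_sub x hx.1)
  exact h (Set.right_mem_Icc.2 hy)

theorem tay3 {y : ℝ} (hy : 0 ≤ y) :
    ‖Complex.exp ((y : ℂ) * Complex.I) - 1 - y * Complex.I + (y : ℂ) ^ 2 / 2‖ ≤ y ^ 3 / 6 := by
  have h := image_norm_le_of_norm_deriv_right_le_deriv_boundary
    (f := fun t : ℝ => Complex.exp ((t : ℂ) * Complex.I) - 1 - t * Complex.I + (t : ℂ) ^ 2 / 2)
    (f' := fun t : ℝ => Complex.exp ((t : ℂ) * Complex.I) * Complex.I - Complex.I + t)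
    (a := 0) (b := y) (B := fun t : ℝ => t ^ 3 / 6) (B' := fun t : ℝ => t ^ 2 / 2)
    (by fun_prop)
    (fun x _ => ((((hasDeriv_e x).sub_const 1).sub (hasDeriv_l x)).add (d_sqC x)).hasDerivWithinAt)
    (by simp)
    (fun x => d_cu x)
    (fun x hx => by
      have e : Complex.exp ((x : ℂ) * Complex.I) * Complex.I - Complex.I + x =
          (Complex.exp ((x : ℂ) * Complex.I) - 1 - x * Complex.I) * Complex.I := by
        have := Complex.I_mul_I
        linear_combination (x : ℂ) * this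
      simp only [e]
      rw [norm_mul, Complex.norm_I, mul_one]
      exact tay2 hx.1)
  exact h (Set.right_mem_Icc.2 hy)

theorem tay (y : ℝ) :
    ‖Complex.exp ((y : ℂ) * Complex.I) - 1 - y * Complex.I + (y : ℂ) ^ 2 / 2‖ ≤ |y| ^ 3 / 6 := by
  rcases le_total 0 y with hy | hy
  · rw [abs_of_nonneg hy]
    exact tay3 hy
  · rw [abs_of_nonpos hy]
    have h := tay3 (y := -y) (by linarith)
    refine le_trans (le_of_eq ?_) h
    rw [← Complex.norm_conj]
    congr 1
    simp only [map_add, map_sub, map_one, map_mul, map_div₀, map_pow, Complex.conj_ofReal,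
      Complex.conj_I, ← Complex.exp_conj, map_ofNat]
    push_cast
    congr 1
    · congr 1
      · congr 1
        congr 1
        ring
      · ring
    · ring

/-- the characters -/
noncomputable def E (j : ℤ) (x : ℝ) : ℂ :=
  Complex.exp (((2 * Real.pi * (j * x) : ℝ) : ℂ) * Complex.I)

theorem E_mul (i j : ℤ) (x : ℝ) : E i x * E j x = E (i + j) x := by
  unfold E
  rw [← Complex.exp_add]
  congr 1
  push_cast
  ring

theorem conj_E (j : ℤ) (x : ℝ) : (starRingEnd ℂ) (E j x) = E (-j) x := by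
  unfold E
  rw [← Complex.exp_conj, map_mul, Complex.conj_ofReal, Complex.conj_I]
  congr 1
  push_cast
  ring

theorem continuous_E (j : ℤ) : Continuous (E j) := by
  unfold E
  fun_prop

theorem int_E (j : ℤ) : ∫ x in (0 : ℝ)..1, E j x = if j = 0 then 1 else 0 := by
  split_ifs with h
  · subst h
    simp [E]
  · have hj : (j : ℂ) ≠ 0 := by exact_mod_cast h
    have hc : (2 * (Real.pi : ℂ) * j * Complex.I) ≠ 0 := by
      have hpi : (Real.pi : ℂ) ≠ 0 := by exact_mod_cast Real.pi_ne_zero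
      exact mul_ne_zero (mul_ne_zero (mul_ne_zero two_ne_zero hpi) hj) Complex.I_ne_zero
    have h1 : ∀ x : ℝ, E j x = Complex.exp ((2 * (Real.pi : ℂ) * j * Complex.I) * x) := by
      intro x
      unfold E
      congr 1
      push_cast
      ring
    simp only [h1]
    rw [integral_exp_mul_complex hc]
    have h2 : Complex.exp (2 * (Real.pi : ℂ) * j * Complex.I * ((1 : ℝ) : ℂ)) = 1 := by
      have := Complex.exp_int_mul_two_pi_mul_I j
      rw [← this]
      congr 1
      push_cast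
      ring
    rw [h2]
    simp

section block

variable {s : Finset ℕ} {k : ℕ → ℤ} (c : ℕ → ℂ)

/-- the trigonometric polynomial -/
noncomputable def Z (s : Finset ℕ) (k : ℕ → ℤ) (c : ℕ → ℂ) (x : ℝ) : ℂ := ∑ n ∈ s, c n * E (k n) x

theorem continuous_Z (s : Finset ℕ) (k : ℕ → ℤ) (c : ℕ → ℂ) : Continuous (Z s k c) := by
  unfold Z
  exact continuous_finsetSum _ fun n _ => continuous_const.mul (continuous_E _)

theorem int_Z (hk : ∀ n ∈ s, 1 ≤ k n) : ∫ x in (0 : ℝ)..1, (Z s k c x).re = 0 := by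
  have h1 : ∫ x in (0 : ℝ)..1, (Z s k c x).re = (∫ x in (0 : ℝ)..1, Z s k c x).re :=
    Complex.reCLM.intervalIntegral_comp_comm ((continuous_Z s k c).intervalIntegrable _ _)
  rw [h1]
  unfold Z
  have hcc : ∀ n : ℕ, Continuous (fun x : ℝ => c n * E (k n) x) :=
    fun n => continuous_const.mul (continuous_E _)
  rw [intervalIntegral.integral_finsetSum fun n _ => (hcc n).intervalIntegrable _ _]
  have h2 : ∀ n ∈ s, ∫ x in (0 : ℝ)..1, c n * E (k n) x = 0 := by
    intro n hn
    rw [intervalIntegral.integral_const_mul, int_E, if_neg (by have := hk n hn; omega), mul_zero]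
  rw [Finset.sum_congr rfl h2]
  simp

theorem sq_re (z : ℂ) : z.re ^ 2 = (1 / 2) * (z * ((starRingEnd ℂ) z + z)).re := by
  simp [Complex.mul_re, Complex.add_re, Complex.add_im]
  ring

theorem int_Z2 (hk : ∀ n ∈ s, 1 ≤ k n) (hi : Set.InjOn k s) :
    ∫ x in (0 : ℝ)..1, (Z s k c x).re ^ 2 = (1 / 2) * ∑ n ∈ s, ‖c n‖ ^ 2 := by
  have hW : Continuous fun x => Z s k c x * ((starRingEnd ℂ) (Z s k c x) + Z s k c x) := by
    have h1 := continuous_Z s k c
    exact h1.mul ((Complex.continuous_conj.comp h1).add h1)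
  simp only [sq_re]
  rw [intervalIntegral.integral_const_mul]
  congr 1
  have h1 : ∫ x in (0 : ℝ)..1, (Z s k c x * ((starRingEnd ℂ) (Z s k c x) + Z s k c x)).re =
      (∫ x in (0 : ℝ)..1, Z s k c x * ((starRingEnd ℂ) (Z s k c x) + Z s k c x)).re :=
    Complex.reCLM.intervalIntegral_comp_comm (hW.intervalIntegrable _ _)
  rw [h1]
  have h2 : ∀ x, Z s k c x * ((starRingEnd ℂ) (Z s k c x) + Z s k c x) =
      ∑ n ∈ s, ∑ m ∈ s, (c n * (starRingEnd ℂ) (c m) * E (k n - k m) x +
        c n * c m * E (k n + k m) x) := by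
    intro x
    unfold Z
    rw [map_sum, ← Finset.sum_add_distrib, Finset.sum_mul_sum]
    refine Finset.sum_congr rfl fun n _ => Finset.sum_congr rfl fun m _ => ?_
    rw [map_mul, conj_E, sub_eq_add_neg, ← E_mul, ← E_mul]
    ring
  simp only [h2]
  have hc1 : ∀ n m : ℕ, Continuous fun x => c n * (starRingEnd ℂ) (c m) * E (k n - k m) x :=
    fun n m => continuous_const.mul (continuous_E _)
  have hc2 : ∀ n m : ℕ, Continuous fun x => c n * c m * E (k n + k m) x :=
    fun n m => continuous_const.mul (continuous_E _)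
  have hc3 : ∀ n m : ℕ, Continuous fun x => c n * (starRingEnd ℂ) (c m) * E (k n - k m) x +
      c n * c m * E (k n + k m) x := fun n m => (hc1 n m).add (hc2 n m)
  have hc4 : ∀ n : ℕ, Continuous fun x => ∑ m ∈ s, (c n * (starRingEnd ℂ) (c m) *
      E (k n - k m) x + c n * c m * E (k n + k m) x) :=
    fun n => continuous_finsetSum _ fun m _ => hc3 n m
  rw [intervalIntegral.integral_finsetSum fun n _ => (hc4 n).intervalIntegrable _ _]
  have h3 : ∀ n ∈ s, ∫ x in (0 : ℝ)..1, ∑ m ∈ s, (c n * (starRingEnd ℂ) (c m) * E (k n - k m) x +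
        c n * c m * E (k n + k m) x) = ((‖c n‖ ^ 2 : ℝ) : ℂ) := by
    intro n hn
    rw [intervalIntegral.integral_finsetSum fun m _ => (hc3 n m).intervalIntegrable _ _]
    have h4 : ∀ m ∈ s, ∫ x in (0 : ℝ)..1, (c n * (starRingEnd ℂ) (c m) * E (k n - k m) x +
        c n * c m * E (k n + k m) x) = if m = n then c n * (starRingEnd ℂ) (c m) else 0 := by
      intro m hm
      rw [intervalIntegral.integral_add ((hc1 n m).intervalIntegrable _ _)
        ((hc2 n m).intervalIntegrable _ _), intervalIntegral.integral_const_mul,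
        intervalIntegral.integral_const_mul, int_E, int_E]
      have e1 : ¬ (k n + k m = 0) := by
        have := hk n hn
        have := hk m hm
        omega
      rw [if_neg e1, mul_zero, add_zero]
      by_cases h5 : m = n
      · subst h5
        simp
      · have e2 : ¬ (k n - k m = 0) := by
          intro h6
          exact h5 (hi hm hn (by omega))
        rw [if_neg e2, if_neg h5, mul_zero]
    rw [Finset.sum_congr rfl h4, Finset.sum_ite_eq' s n, if_pos hn, Complex.mul_conj,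
      Complex.normSq_eq_norm_sq]
  rw [Finset.sum_congr rfl h3, ← Complex.ofReal_sum, Complex.ofReal_re]

theorem norm_Z (x : ℝ) : |(Z s k c x).re| ≤ ∑ n ∈ s, ‖c n‖ := by
  refine (Complex.abs_re_le_norm _).trans ?_
  unfold Z
  refine (norm_sum_le _ _).trans (Finset.sum_le_sum fun n _ => ?_)
  rw [norm_mul]
  unfold E
  rw [Complex.norm_exp_ofReal_mul_I, mul_one]

theorem exp_quad {t : ℝ} (ht : 0 ≤ t) : |Real.exp (-t) - (1 - t)| ≤ t ^ 2 / 2 := by
  have h1 := Real.add_one_le_exp (-t)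
  have h2 := Real.quadratic_le_exp_of_nonneg ht
  have h3 : Real.exp (-t) * Real.exp t = 1 := by rw [← Real.exp_add]; simp
  have h4 := Real.exp_pos (-t)
  have h5 : Real.exp (-t) * (1 + t + t ^ 2 / 2) ≤ 1 := by nlinarith
  rw [abs_le]
  constructor
  · nlinarith
  · by_contra hcon
    push Not at hcon
    have h6 : 1 - t + t ^ 2 / 2 < Real.exp (-t) := by linarith
    have h7 : (0 : ℝ) < 1 + t + t ^ 2 / 2 := by positivity
    have h8 : (1 - t + t ^ 2 / 2) * (1 + t + t ^ 2 / 2) < Real.exp (-t) * (1 + t + t ^ 2 / 2) :=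
      mul_lt_mul_of_pos_right h6 h7
    nlinarith [sq_nonneg (t ^ 2)]

theorem block (hk : ∀ n ∈ s, 1 ≤ k n) (hi : Set.InjOn k s) :
    ‖(∫ x in (0 : ℝ)..1, Complex.exp ((((Z s k c x).re : ℝ) : ℂ) * Complex.I)) -
      ((Real.exp (-(((1 / 2) * ∑ n ∈ s, ‖c n‖ ^ 2) / 2)) : ℝ) : ℂ)‖ ≤
    (∑ n ∈ s, ‖c n‖) * ((1 / 2) * ∑ n ∈ s, ‖c n‖ ^ 2) +
      (∑ n ∈ s, ‖c n‖) ^ 2 * ((1 / 2) * ∑ n ∈ s, ‖c n‖ ^ 2) := by
  set b := ∑ n ∈ s, ‖c n‖ with hb
  have hb0 : 0 ≤ b := Finset.sum_nonneg fun n _ => norm_nonneg _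
  have hv1 : ∑ n ∈ s, ‖c n‖ ^ 2 ≤ b ^ 2 := Finset.sum_sq_le_sq_sum_of_nonneg fun n _ => norm_nonneg _
  have hm := int_Z c hk
  have hm2 := int_Z2 c hk hi
  set v := (1 / 2) * ∑ n ∈ s, ‖c n‖ ^ 2 with hv
  have hv0 : 0 ≤ v := by
    have : 0 ≤ ∑ n ∈ s, ‖c n‖ ^ 2 := Finset.sum_nonneg fun n _ => by positivity
    positivity
  have hvb : v ≤ b ^ 2 / 2 := by rw [hv]; linarith
  set Yf : ℝ → ℝ := fun x => (Z s k c x).re with hYf
  have hYc : Continuous Yf := Complex.continuous_re.comp (continuous_Z s k c)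
  have hYb : ∀ x, |Yf x| ≤ b := fun x => norm_Z c x
  have hec : Continuous fun x => Complex.exp (((Yf x : ℝ) : ℂ) * Complex.I) := by fun_prop
  have h1 : (∫ x in (0 : ℝ)..1, (Complex.exp (((Yf x : ℝ) : ℂ) * Complex.I) - 1 -
      (Yf x : ℂ) * Complex.I + (Yf x : ℂ) ^ 2 / 2)) =
      (∫ x in (0 : ℝ)..1, Complex.exp (((Yf x : ℝ) : ℂ) * Complex.I)) - 1 + (v : ℂ) / 2 := by
    have c1 : Continuous fun x => (Yf x : ℂ) * Complex.I := by fun_prop
    have c2 : Continuous fun x => (Yf x : ℂ) ^ 2 / 2 := by fun_prop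
    have c3 : Continuous fun x => Complex.exp (((Yf x : ℝ) : ℂ) * Complex.I) - 1 := by fun_prop
    have c4 : Continuous fun x => Complex.exp (((Yf x : ℝ) : ℂ) * Complex.I) - 1 -
      (Yf x : ℂ) * Complex.I := by fun_prop
    have c5 : Continuous fun _ : ℝ => (1 : ℂ) := continuous_const
    rw [intervalIntegral.integral_add (c4.intervalIntegrable _ _) (c2.intervalIntegrable _ _),
      intervalIntegral.integral_sub (c3.intervalIntegrable _ _) (c1.intervalIntegrable _ _),
      intervalIntegral.integral_sub (hec.intervalIntegrable _ _) (c5.intervalIntegrable _ _)]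
    have e1 : ∫ x in (0 : ℝ)..1, (Yf x : ℂ) * Complex.I = 0 := by
      rw [intervalIntegral.integral_mul_const, intervalIntegral.integral_ofReal, hm]
      simp
    have e2 : ∫ x in (0 : ℝ)..1, (Yf x : ℂ) ^ 2 / 2 = (v : ℂ) / 2 := by
      rw [intervalIntegral.integral_div]
      congr 1
      have : ∀ x, (Yf x : ℂ) ^ 2 = ((Yf x ^ 2 : ℝ) : ℂ) := fun x => by push_cast; rfl
      simp only [this]
      rw [intervalIntegral.integral_ofReal, hm2]
    rw [e1, e2]
    simp
  have h2 : ‖(∫ x in (0 : ℝ)..1, Complex.exp (((Yf x : ℝ) : ℂ) * Complex.I)) - 1 + (v : ℂ) / 2‖ ≤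
      b * v / 6 := by
    rw [← h1]
    refine (intervalIntegral.norm_integral_le_integral_norm zero_le_one).trans ?_
    have h3 : ∫ x in (0 : ℝ)..1, ‖Complex.exp (((Yf x : ℝ) : ℂ) * Complex.I) - 1 -
      (Yf x : ℂ) * Complex.I + (Yf x : ℂ) ^ 2 / 2‖ ≤ ∫ x in (0 : ℝ)..1, (b / 6) * Yf x ^ 2 := by
      refine intervalIntegral.integral_mono_on zero_le_one ?_ ?_ ?_
      · apply Continuous.intervalIntegrable
        fun_prop
      · apply Continuous.intervalIntegrable
        fun_prop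
      · intro x _
        refine (tay (Yf x)).trans ?_
        have h4 : |Yf x| ^ 3 = |Yf x| * Yf x ^ 2 := by
          rw [pow_succ, sq_abs]
          ring
        rw [h4]
        have h5 := mul_le_mul_of_nonneg_right (hYb x) (sq_nonneg (Yf x))
        linarith
    refine h3.trans (le_of_eq ?_)
    rw [intervalIntegral.integral_const_mul, hm2]
    ring
  have h3 : ‖((1 - v / 2 : ℝ) : ℂ) - ((Real.exp (-(v / 2)) : ℝ) : ℂ)‖ ≤ v ^ 2 / 8 := by
    rw [← Complex.ofReal_sub, Complex.norm_real, Real.norm_eq_abs, abs_sub_comm]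
    refine (exp_quad (by positivity : 0 ≤ v / 2)).trans (le_of_eq ?_)
    ring
  have h4 : (∫ x in (0 : ℝ)..1, Complex.exp (((Yf x : ℝ) : ℂ) * Complex.I)) -
      ((Real.exp (-(v / 2)) : ℝ) : ℂ) =
      ((∫ x in (0 : ℝ)..1, Complex.exp (((Yf x : ℝ) : ℂ) * Complex.I)) - 1 + (v : ℂ) / 2) +
      (((1 - v / 2 : ℝ) : ℂ) - ((Real.exp (-(v / 2)) : ℝ) : ℂ)) := by
    push_cast
    ring
  rw [h4]
  refine (norm_add_le _ _).trans ((add_le_add h2 h3).trans ?_)
  have h5 : 0 ≤ b * v := mul_nonneg hb0 hv0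
  have h6 : v ^ 2 / 8 ≤ b ^ 2 * v := by nlinarith [mul_nonneg hv0 (sq_nonneg b)]
  linarith

end block

theorem prod_sub {ι : Type} (s : Finset ι) (z w : ι → ℂ) (hz : ∀ i ∈ s, ‖z i‖ ≤ 1)
    (hw : ∀ i ∈ s, ‖w i‖ ≤ 1) : ‖∏ i ∈ s, z i - ∏ i ∈ s, w i‖ ≤ ∑ i ∈ s, ‖z i - w i‖ := by
  classical
  induction s using Finset.induction_on with
  | empty => simp
  | insert a s ha ih =>
    rw [Finset.prod_insert ha, Finset.prod_insert ha, Finset.sum_insert ha]
    have h1 : z a * ∏ i ∈ s, z i - w a * ∏ i ∈ s, w i =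
        (z a - w a) * ∏ i ∈ s, z i + w a * (∏ i ∈ s, z i - ∏ i ∈ s, w i) := by ring
    rw [h1]
    refine (norm_add_le _ _).trans (add_le_add ?_ ?_)
    · rw [norm_mul]
      refine mul_le_of_le_one_right (norm_nonneg _) ?_
      rw [norm_prod]
      exact Finset.prod_le_one (fun i _ => norm_nonneg _)
        fun i hi => hz i (Finset.mem_insert_of_mem hi)
    · rw [norm_mul]
      refine (mul_le_of_le_one_left (norm_nonneg _) (hw a (Finset.mem_insert_self _ _))).trans ?_
      exact ih (fun i hi => hz i (Finset.mem_insert_of_mem hi))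
        fun i hi => hw i (Finset.mem_insert_of_mem hi)

theorem rt_pos {n : ℕ} (hn : 1 ≤ n) : 1 ≤ rt n := by
  by_contra h
  have h0 : rt n = 0 := by omega
  have := rt_sf n
  rw [h0] at this
  simp at this
  omega

theorem sf_pos {n : ℕ} (hn : 1 ≤ n) : 1 ≤ sf n := by
  by_contra h
  have h0 : sf n = 0 := by omega
  have := rt_sf n
  rw [h0] at this
  simp at this
  omega

theorem sf_le {n : ℕ} (hn : 1 ≤ n) : sf n ≤ n := by
  have h1 := rt_sf n
  have h2 := rt_pos hn
  calc sf n ≤ rt n ^ 2 * sf n := Nat.le_mul_of_pos_left _ (by positivity)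
    _ = n := h1

theorem t_CLT : S_CLT := by
  intro c N
  have hYq : ∀ q x, Yq c N q x = (Z (blk N q) (fun n => (rt n : ℤ)) c x).re := by
    intro q x
    unfold Yq Z E
    rw [Complex.re_sum]
    push_cast
    rfl
  have hblk : ∀ q, ‖(∫ x in (0 : ℝ)..1, Complex.exp (((Yq c N q x : ℝ) : ℂ) * Complex.I)) -
      ((Real.exp (-(vq c N q / 2)) : ℝ) : ℂ)‖ ≤ bq c N q * vq c N q + bq c N q ^ 2 * vq c N q := by
    intro q
    simp only [hYq]
    refine block (s := blk N q) (k := fun n => (rt n : ℤ)) c ?_ ?_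
    · intro n hn
      unfold blk at hn
      rw [Finset.mem_filter, Finset.mem_Icc] at hn
      exact_mod_cast rt_pos hn.1.1
    · intro n hn m hm hnm
      rw [Finset.mem_coe] at hn hm
      unfold blk at hn hm
      rw [Finset.mem_filter, Finset.mem_Icc] at hn hm
      have h0 : (rt n : ℤ) = rt m := hnm
      have h1 : rt n = rt m := by exact_mod_cast h0
      rw [← rt_sf n, ← rt_sf m, h1, hn.2, hm.2]
  have hz : ∀ q, ‖∫ x in (0 : ℝ)..1, Complex.exp (((Yq c N q x : ℝ) : ℂ) * Complex.I)‖ ≤ 1 := by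
    intro q
    have := intervalIntegral.norm_integral_le_of_norm_le_const (a := (0 : ℝ)) (b := 1) (C := 1)
      (f := fun x => Complex.exp (((Yq c N q x : ℝ) : ℂ) * Complex.I)) (fun x _ => by
        rw [Complex.norm_exp_ofReal_mul_I])
    simpa using this
  have hw : ∀ q, ‖((Real.exp (-(vq c N q / 2)) : ℝ) : ℂ)‖ ≤ 1 := by
    intro q
    rw [Complex.norm_real, Real.norm_of_nonneg (Real.exp_pos _).le, Real.exp_le_one_iff]
    have : 0 ≤ vq c N q := by
      unfold vq
      have : 0 ≤ ∑ n ∈ blk N q, ‖c n‖ ^ 2 := Finset.sum_nonneg fun n _ => by positivity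
      positivity
    linarith
  have hV : ∑ q ∈ Finset.Icc 1 N, vq c N q = V c N := by
    unfold vq V blk
    rw [← Finset.mul_sum]
    congr 1
    refine Finset.sum_fiberwise_of_maps_to (g := sf) (fun n hn => ?_) _
    rw [Finset.mem_Icc] at hn ⊢
    exact ⟨sf_pos hn.1, (sf_le hn.1).trans hn.2⟩
  have hprod : ((Real.exp (-(V c N / 2)) : ℝ) : ℂ) =
      ∏ q ∈ Finset.Icc 1 N, ((Real.exp (-(vq c N q / 2)) : ℝ) : ℂ) := by
    rw [← Complex.ofReal_prod, ← Real.exp_sum, ← hV]
    congr 2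
    rw [Finset.sum_neg_distrib, ← Finset.sum_div]
  rw [hprod]
  exact (prod_sub _ _ _ (fun q _ => hz q) (fun q _ => hw q)).trans
    (Finset.sum_le_sum fun q _ => hblk q)

end Pool.Agent.U908.LB.CLT
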